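import Mathlib
import Pool.Agent.H933.LL.Stm

/-!
# The sub-mean value property of `log⁺ |g|` over discs
-/

set_option autoImplicit false

open MeasureTheory Metric
open scoped Real

namespace Pool.Agent.H253.LL

open Pool.Agent.H933.LL

/-- the sub-mean value property over circles -/
theorem circ {g : ℂ → ℂ} {c : ℂ} {s : ℝ} (hs : 0 < s) (hg : AnalyticOnNhd ℂ g (closedBall c s)) :
    Real.posLog ‖g c‖ ≤ Real.circleAverage (fun z => Real.posLog ‖g z‖) c s := by
  have habs : |s| = s := abs_of_pos hs
  have hcont : ContinuousOn g (closedBall c s) := hg.continuousOn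
  have hci : CircleIntegrable (fun z => Real.posLog ‖g z‖) c s := by
    apply ContinuousOn.circleIntegrable hs.le
    exact Real.continuous_posLog.comp_continuousOn ((hcont.mono sphere_subset_closedBall).norm)
  have h0 : 0 ≤ Real.circleAverage (fun z => Real.posLog ‖g z‖) c s := by
    have h1 : CircleIntegrable (fun _ : ℂ => (0 : ℝ)) c s := circleIntegrable_const 0 c s
    have h2 := Real.circleAverage_mono h1 hci (fun z _ => Real.posLog_nonneg)
    rwa [Real.circleAverage_const] at h2
  by_cases hgc : g c = 0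
  · rw [hgc, norm_zero, Real.posLog_zero]
    exact h0
  · have hg' : AnalyticOnNhd ℂ g (closedBall c |s|) := by rw [habs]; exact hg
    have hJ := AnalyticOnNhd.circleAverage_log_norm hs.ne' hg' hgc
    have hnn : 0 ≤ ∑ᶠ u, (MeromorphicOn.divisor g (closedBall c |s|) u : ℝ) *
        Real.log (s * ‖c - u‖⁻¹) := by
      apply finsum_nonneg
      intro u
      by_cases hu : u ∈ closedBall c |s|
      · refine mul_nonneg (mod_cast MeromorphicOn.AnalyticOnNhd.divisor_nonneg hg' ..) ?_
        by_cases huc : c = u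
        · rw [huc, sub_self, norm_zero, inv_zero, mul_zero, Real.log_zero]
        · apply Real.log_nonneg
          have h1 : 0 < ‖c - u‖ := norm_pos_iff.2 (sub_ne_zero.2 huc)
          rw [← div_eq_mul_inv, one_le_div h1]
          rw [habs, mem_closedBall, dist_comm, dist_eq_norm] at hu
          exact hu
      · rw [Function.locallyFinsuppWithin.apply_eq_zero_of_notMem _ hu]
        simp
    have hle : Real.log ‖g c‖ ≤ Real.circleAverage (fun z => Real.posLog ‖g z‖) c s := by
      have h1 : Real.log ‖g c‖ ≤ Real.circleAverage (fun z => Real.log ‖g z‖) c s := by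
        rw [hJ]; linarith
      refine h1.trans ?_
      apply Real.circleAverage_mono _ hci (fun z _ => le_max_right _ _)
      exact MeromorphicOn.circleIntegrable_log_norm
        ((hg'.mono sphere_subset_closedBall).meromorphicOn)
    exact max_le h0 hle

/-- polar coordinates -/
theorem polar {φ : ℂ → ℝ} {c : ℂ} {r : ℝ} (hφ : ContinuousOn φ (closedBall c r)) :
    IntegrableOn (fun s => 2 * π * s * Real.circleAverage φ c s) (Set.Ioo 0 r) ∧
    ∫ z in ball c r, φ z = ∫ s in Set.Ioo 0 r, 2 * π * s * Real.circleAverage φ c s := by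
  have h1 : ∫ z in ball c r, φ z = ∫ z, (ball c r).indicator φ (c + z) := by
    rw [← integral_indicator measurableSet_ball]
    exact (integral_add_left_eq_self (μ := volume) ((ball c r).indicator φ) c).symm
  rw [h1, ← Complex.integral_comp_polarCoord_symm, polarCoord_target]
  have h2 : ∀ p ∈ Set.Ioi (0 : ℝ) ×ˢ Set.Ioo (-π) π,
      p.1 • (ball c r).indicator φ (c + Complex.polarCoord.symm p) =
        (Set.Ioo 0 r ×ˢ Set.Ioo (-π) π).indicator (fun p => p.1 * φ (circleMap c p.1 p.2)) p := by
    rintro ⟨s, θ⟩ ⟨hs, hθ⟩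
    simp only at hs hθ
    have hs0 : (0 : ℝ) < s := hs
    have e1 : c + Complex.polarCoord.symm (s, θ) = circleMap c s θ := by
      rw [Complex.polarCoord_symm_apply, circleMap, Complex.exp_mul_I]
      push_cast
      rfl
    rw [e1]
    by_cases hsr : s < r
    · have m1 : circleMap c s θ ∈ ball c r := by
        rw [mem_ball, dist_eq_norm, circleMap_sub_center, norm_circleMap_zero, abs_of_pos hs0]
        exact hsr
      have m2 : ((s, θ) : ℝ × ℝ) ∈ Set.Ioo 0 r ×ˢ Set.Ioo (-π) π := ⟨⟨hs0, hsr⟩, hθ⟩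
      rw [Set.indicator_of_mem m1, Set.indicator_of_mem m2, smul_eq_mul]
    · have m1 : circleMap c s θ ∉ ball c r := by
        rw [mem_ball, dist_eq_norm, circleMap_sub_center, norm_circleMap_zero, abs_of_pos hs0]
        exact hsr
      have m2 : ((s, θ) : ℝ × ℝ) ∉ Set.Ioo 0 r ×ˢ Set.Ioo (-π) π := fun h => hsr h.1.2
      rw [Set.indicator_of_notMem m1, Set.indicator_of_notMem m2, smul_zero]
  have hm1 : MeasurableSet (Set.Ioi (0 : ℝ) ×ˢ Set.Ioo (-π) π) :=
    measurableSet_Ioi.prod measurableSet_Ioo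
  have hm2 : MeasurableSet (Set.Ioo (0 : ℝ) r ×ˢ Set.Ioo (-π) π) :=
    measurableSet_Ioo.prod measurableSet_Ioo
  rw [setIntegral_congr_fun hm1 h2, setIntegral_indicator hm2]
  have h3 : Set.Ioi (0 : ℝ) ×ˢ Set.Ioo (-π) π ∩ Set.Ioo (0 : ℝ) r ×ˢ Set.Ioo (-π) π =
      Set.Ioo (0 : ℝ) r ×ˢ Set.Ioo (-π) π := by
    apply Set.inter_eq_right.2
    exact Set.prod_mono (fun x hx => hx.1) (subset_refl _)
  rw [h3]
  have hmap : ∀ s θ : ℝ, 0 ≤ s → s ≤ r → circleMap c s θ ∈ closedBall c r := by
    intro s θ h0 hsr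
    rw [mem_closedBall, dist_eq_norm, circleMap_sub_center, norm_circleMap_zero, abs_of_nonneg h0]
    exact hsr
  have hcm : Continuous fun p : ℝ × ℝ => circleMap c p.1 p.2 := by
    unfold circleMap
    fun_prop
  have hint : IntegrableOn (fun p : ℝ × ℝ => p.1 * φ (circleMap c p.1 p.2))
      (Set.Ioo (0 : ℝ) r ×ˢ Set.Ioo (-π) π) (volume.prod volume) := by
    have hc : ContinuousOn (fun p : ℝ × ℝ => p.1 * φ (circleMap c p.1 p.2))
        (Set.Icc (0 : ℝ) r ×ˢ Set.Icc (-π) π) := by
      apply continuousOn_fst.mul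
      exact hφ.comp hcm.continuousOn (fun p hp => hmap _ _ hp.1.1 hp.1.2)
    have := hc.integrableOn_compact (μ := (volume : Measure ℝ).prod volume)
      (isCompact_Icc.prod isCompact_Icc)
    exact this.mono_set (Set.prod_mono Set.Ioo_subset_Icc_self Set.Ioo_subset_Icc_self)
  rw [Measure.volume_eq_prod, setIntegral_prod _ hint]
  suffices hsuf : ∀ s ∈ Set.Ioo 0 r, ∫ θ in Set.Ioo (-π) π, s * φ (circleMap c s θ) =
      2 * π * s * Real.circleAverage φ c s by
    refine ⟨?_, setIntegral_congr_fun measurableSet_Ioo hsuf⟩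
    have hint' := hint
    rw [IntegrableOn, ← Measure.prod_restrict] at hint'
    have h5 : IntegrableOn (fun s => ∫ θ in Set.Ioo (-π) π, s * φ (circleMap c s θ))
        (Set.Ioo 0 r) := hint'.integral_prod_left
    exact h5.congr_fun hsuf measurableSet_Ioo
  intro s hs
  rw [integral_const_mul, Real.circleAverage_def, smul_eq_mul]
  have h4 : ∫ θ in Set.Ioo (-π) π, φ (circleMap c s θ) = ∫ θ in (0 : ℝ)..2 * π,
      φ (circleMap c s θ) := by
    rw [← integral_Ioc_eq_integral_Ioo, ← intervalIntegral.integral_of_le (by linarith [Real.pi_pos])]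
    have hper : Function.Periodic (fun θ => φ (circleMap c s θ)) (2 * π) := fun θ => by
      show φ (circleMap c s (θ + 2 * π)) = φ (circleMap c s θ)
      rw [periodic_circleMap c s θ]
    have h5 := hper.intervalIntegral_add_eq (-π) 0
    rw [show -π + 2 * π = π by ring, zero_add] at h5
    exact h5
  rw [h4]
  have hpi : π ≠ 0 := Real.pi_ne_zero
  field_simp

theorem p_mean : P_mean := by
  intro g U c r hU hr hcr hg
  have han : ∀ z ∈ closedBall c r, AnalyticAt ℂ g z := fun z hz =>
    hg.analyticAt (hU.mem_nhds (hcr hz))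
  have hφ : ContinuousOn (fun z => Real.posLog ‖g z‖) (closedBall c r) :=
    Real.continuous_posLog.comp_continuousOn ((hg.continuousOn.mono hcr).norm)
  obtain ⟨hint, hpol⟩ := polar hφ
  rw [hpol]
  have hpi : 0 < π := Real.pi_pos
  have h1 : π * r ^ 2 * Real.posLog ‖g c‖ =
      ∫ s in Set.Ioo 0 r, 2 * π * s * Real.posLog ‖g c‖ := by
    rw [← integral_Ioc_eq_integral_Ioo, ← intervalIntegral.integral_of_le hr.le]
    have e : ∀ s : ℝ, 2 * π * s * Real.posLog ‖g c‖ = (2 * π * Real.posLog ‖g c‖) * s :=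
      fun s => by ring
    simp only [e]
    rw [intervalIntegral.integral_const_mul, integral_id]
    ring
  rw [h1]
  have hle : ∀ s ∈ Set.Ioo 0 r, 2 * π * s * Real.posLog ‖g c‖ ≤
      2 * π * s * Real.circleAverage (fun z => Real.posLog ‖g z‖) c s := by
    intro s hs
    apply mul_le_mul_of_nonneg_left _ (by have := hs.1; positivity)
    exact circ hs.1 (fun z hz => han z (closedBall_subset_closedBall hs.2.le hz))
  refine setIntegral_mono_on ?_ hint measurableSet_Ioo hle
  have hc : Continuous fun s : ℝ => 2 * π * s * Real.posLog ‖g c‖ := by fun_prop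
  exact (hc.continuousOn.integrableOn_compact isCompact_Icc).mono_set Set.Ioo_subset_Icc_self

end Pool.Agent.H253.LL
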